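import Mathlib

set_option autoImplicit false

namespace Pool.Agent.Results.MP_6bb66b_gt.Free

open Set Filter Function Topology TopologicalSpace

def Quasi {X : Type} [TopologicalSpace X] (f : X → ℝ) : Prop :=
  ∀ x (U : Set X) (V : Set ℝ), IsOpen U → x ∈ U → IsOpen V → f x ∈ V →
    ∃ W : Set X, IsOpen W ∧ W.Nonempty ∧ W ⊆ U ∧ f '' W ⊆ V

def SemiRegular (X : Type) [TopologicalSpace X] : Prop :=
  IsTopologicalBasis {U : Set X | U = interior (closure U)}

def OpenWhyburn (X : Type) [TopologicalSpace X] : Prop :=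
  ∀ A : Set X, IsOpen A → ∀ x ∈ closure A \ A, ∃ B ⊆ A, IsOpen B ∧ closure B \ A = {x}

/-- height of a node -/
noncomputable def ht {T : Type} [PartialOrder T] [WellFoundedLT T] (t : T) : Ordinal :=
  IsWellFounded.rank (· < ·) t

/-- normal infinitely splitting free Suslin tree -/
def FreeTree (T : Type) [PartialOrder T] [WellFoundedLT T] : Prop :=
  (∀ t : T, IsChain (· ≤ ·) (Iic t)) ∧ Uncountable T ∧
  (∀ C : Set T, IsChain (· ≤ ·) C → C.Countable) ∧
  (∀ A : Set T, IsAntichain (· ≤ ·) A → A.Countable) ∧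
  (∀ t : T, {s | t ⋖ s}.Infinite) ∧
  (∀ s t : T, ht s ≤ ht t → ∃ s', s ≤ s' ∧ ht s' = ht t) ∧
  ∀ (n : ℕ) (a : Fin n → T), Injective a → (∀ i j, ht (a i) = ht (a j)) →
    ∀ A : Set (Fin n → T), (∀ s ∈ A, a ≤ s ∧ ∀ i j, ht (s i) = ht (s j)) →
      IsAntichain (· ≤ ·) A → A.Countable

lemma anti {α : Type} [PartialOrder α] (P : α → Prop) : IsAntichain (· ≤ ·) {a | Minimal P a} :=
  fun _ ha _ hb n k => n (le_antisymm k (hb.2 ha.1 k))

/-- From a free Suslin tree: an uncountable open Whyburn Hausdorff semi-regular space whose space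
of quasicontinuous functions is Fréchet–Urysohn. -/
theorem result (h : ∃ (T : Type) (_ : PartialOrder T) (_ : WellFoundedLT T), FreeTree T) :
    ∃ (X : Type) (_ : TopologicalSpace X), Uncountable X ∧ T2Space X ∧ SemiRegular X ∧
      OpenWhyburn X ∧ FrechetUrysohnSpace {f : X → ℝ // Quasi f} := by
  classical
  obtain ⟨T, _, _, tr, un, ch, an, sp, no, spe⟩ := h
  have cmp : ∀ {x a b : T}, a ≤ x → b ≤ x → a ≤ b ∨ b ≤ a := fun {x a b} ha hb =>
    (tr x).total ha hb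
  have mono : StrictMono (ht : T → Ordinal) := WellFoundedLT.rank_strictMono
  let e : T → T → Bool := fun t s => decide (s ≤ t)
  letI : TopologicalSpace T := induced e inferInstance
  have emb : IsEmbedding e := ⟨⟨rfl⟩, fun s t h => le_antisymm
    (by simpa [e] using congrFun h s) (by simpa [e] using congrFun h t)⟩
  have op : ∀ t : T, IsOpen (Ici t) := fun t => by
    have : Ici t = (fun x => e x t) ⁻¹' {true} := by ext; simp [e]
    rw [this]
    exact (isOpen_discrete _).preimage ((continuous_apply t).comp emb.continuous)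
  have nb : ∀ U : Set T, IsOpen U → ∀ t ∈ U, ∃ s, t < s ∧ Ici s ⊆ U := by
    rintro _ ⟨V, hV, rfl⟩ t ht
    obtain ⟨I, u, u1, u2⟩ := isOpen_pi_iff.mp hV _ ht
    have : (⋃ i ∈ I, {s | t ⋖ s ∧ s ≤ i}).Finite := I.finite_toSet.biUnion fun i _ =>
      Set.Subsingleton.finite fun s hs s' hs' => (cmp hs.2 hs'.2).elim
        (fun k => (hs'.1.eq_or_eq hs.1.le k).resolve_left hs.1.ne')
        fun k => ((hs.1.eq_or_eq hs'.1.le k).resolve_left hs'.1.ne').symm
    obtain ⟨s, s1, s2⟩ := ((sp t).diff this).nonempty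
    refine ⟨s, s1.lt, fun x hx => u2 fun i hi => ?_⟩
    have : e x i = e t i := by
      refine decide_eq_decide.mpr ⟨fun k => ?_, fun k => k.trans (s1.le.trans hx)⟩
      have k1 : ¬ s ≤ i := fun c => s2 (mem_iUnion₂.mpr ⟨i, hi, s1, c⟩)
      rcases cmp k (s1.le.trans hx) with c | c
      · exact c
      · rcases s1.eq_or_eq c ((cmp k hx).resolve_right k1) with rfl | rfl
        exacts [le_rfl, absurd le_rfl k1]
    rw [this]
    exact (u1 i hi).2
  haveI := emb.t3Space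
  have cl : ∀ t : T, IsClosed (Ici t) := fun t => by
    have : Ici t = (fun x => e x t) ⁻¹' {true} := by ext; simp [e]
    rw [this]
    exact (isClosed_discrete _).preimage ((continuous_apply t).comp emb.continuous)
  have cov : ∀ x z : T, x < z → ∃ s, x ⋖ s ∧ s ≤ z := fun x z h => by
    obtain ⟨s, s1, s2⟩ := exists_minimal_le_of_wellFoundedLT (fun a => x < a) z h
    exact ⟨s, ⟨s2.1, fun c a b => b.not_ge (s2.2 a b.le)⟩, s1⟩
  have uq : ∀ {x s s' z : T}, x ⋖ s → x ⋖ s' → s ≤ z → s' ≤ z → s = s' := fun a b c d =>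
    (cmp c d).elim (fun k => (b.eq_or_eq a.le k).resolve_left a.ne')
      fun k => ((a.eq_or_eq b.le k).resolve_left b.ne').symm
  refine ⟨T, inferInstance, un, inferInstance, isTopologicalBasis_of_isOpen_of_nhds
    (fun U h => h ▸ isOpen_interior) fun x U hx hU => ?_, fun A hA x hx => ?_,
    ⟨fun 𝒜 f hf => ?_⟩⟩
  · obtain ⟨t, t1, t2, t3⟩ := exists_mem_nhds_isClosed_subset (hU.mem_nhds hx)
    refine ⟨interior t, subset_antisymm (interior_maximal subset_closure isOpen_interior)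
      (interior_mono (closure_minimal interior_subset t2)), mem_interior_iff_mem_nhds.mpr t1,
      interior_subset.trans t3⟩
  · have : ∀ s : T, ∃ y, (Ici s ∩ A).Nonempty → s ≤ y ∧ Ici y ⊆ A := fun s => by
      by_cases c : (Ici s ∩ A).Nonempty
      · obtain ⟨z, z1, z2⟩ := c
        obtain ⟨y, y1, y2⟩ := nb A hA z z2
        exact ⟨y, fun _ => ⟨z1.trans y1.le, y2⟩⟩
      · exact ⟨s, fun t => absurd t c⟩
    choose y hy using this
    refine ⟨⋃ s ∈ {s | x ⋖ s ∧ (Ici s ∩ A).Nonempty}, Ici (y s),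
      iUnion₂_subset fun s hs => (hy s hs.2).2, isOpen_biUnion fun s _ => op _,
      subset_antisymm ?_ ?_⟩
    · rintro z ⟨z1, z2⟩
      by_contra t
      have a : x ≤ z := closure_minimal (iUnion₂_subset fun s hs => Ici_subset_Ici.mpr
        (hs.1.le.trans (hy s hs.2).1)) (cl x) z1
      obtain ⟨s, s1, s2⟩ := cov x z (a.lt_of_ne (Ne.symm t))
      obtain ⟨w, w1, w2⟩ := mem_closure_iff.mp z1 (Ici s ∩ (Ici (y s))ᶜ)
        ((op s).inter (cl _).isOpen_compl) ⟨s2, fun k => by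
          obtain ⟨w, w1, w2⟩ := mem_closure_iff.mp z1 _ (op s) s2
          obtain ⟨s', a, b⟩ := mem_iUnion₂.mp w2
          obtain rfl := uq s1 a.1 w1 ((hy s' a.2).1.trans b)
          exact z2 ((hy s a.2).2 k)⟩
      obtain ⟨s', a, b⟩ := mem_iUnion₂.mp w2
      obtain rfl := uq s1 a.1 w1.1 ((hy s' a.2).1.trans b)
      exact w1.2 b
    · rw [singleton_subset_iff]
      refine ⟨mem_closure_iff.mpr ?_, hx.2⟩
      rintro _ ⟨V, hV, rfl⟩ ht
      obtain ⟨I, u, u1, u2⟩ := isOpen_pi_iff.mp hV _ ht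
      let O : Set T := Ici x ∩ ⋂ i ∈ I, ⋂ s ∈ {s | x ⋖ s ∧ s ≤ i}, (Ici s)ᶜ
      have o1 : IsOpen O := (op x).inter (isOpen_biInter_finset fun i _ => Set.Finite.isOpen_biInter
        (Set.Subsingleton.finite fun s hs s' hs' => uq hs.1 hs'.1 hs.2 hs'.2)
        fun s _ => (cl s).isOpen_compl)
      obtain ⟨z, z1, z2⟩ := mem_closure_iff.mp hx.1 O o1 ⟨le_rfl, mem_iInter₂.mpr fun i _ =>
        mem_iInter₂.mpr fun s hs => hs.1.lt.not_ge⟩
      obtain ⟨s, s1, s2⟩ := cov x z (z1.1.lt_of_ne fun k => hx.2 (k ▸ z2))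
      have s3 := hy s ⟨z, s2, z2⟩
      refine ⟨y s, u2 fun i hi => ?_, mem_biUnion ⟨s1, z, s2, z2⟩ le_rfl⟩
      have : e (y s) i = e x i := by
        refine decide_eq_decide.mpr ⟨fun k => ?_, fun k => k.trans (s1.le.trans s3.1)⟩
        have k1 : ¬ s ≤ i := fun c => mem_iInter₂.mp (mem_iInter₂.mp z1.2 i hi) s ⟨s1, c⟩ s2
        rcases cmp k (s1.le.trans s3.1) with c | c
        · exact c
        · rcases s1.eq_or_eq c ((cmp k s3.1).resolve_right k1) with rfl | rfl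
          exacts [le_rfl, absurd le_rfl k1]
      rw [this]
      exact (u1 i hi).2
  have qc : ∀ g : T → ℝ, Quasi g → ∀ x, ∀ ε > 0, ∃ y, x ≤ y ∧ ∀ z, y ≤ z → |g z - g x| < ε := by
    intro g hg x ε h
    obtain ⟨W, a, ⟨w, b⟩, c, d⟩ := hg x _ _ (op x) le_rfl Metric.isOpen_ball
      (Metric.mem_ball_self h)
    obtain ⟨y, y1, y2⟩ := nb W a w b
    exact ⟨y, (c b).trans y1.le, fun z hz => d ⟨z, y2 hz, rfl⟩⟩
  let 𝒰 : ℕ → Set (Set T) := fun k => (fun g => {x | |g.1 x - f.1 x| < 4 * (1 / (k + 1))}) '' 𝒜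
  have om : ∀ k m n (u : Fin m → T) (x : Fin n → T), ∃ U ∈ 𝒰 k, range u ⊆ U ∧
      ∀ i, ∃ y, x i ≤ y ∧ Ici y ⊆ U := by
    intro k m n u x
    have ε0 : (0 : ℝ) < 1 / (k + 1) := by positivity
    choose y y1 y2 using fun i => qc f.1 f.2 (x i) _ ε0
    obtain ⟨g, g1, g2⟩ := mem_closure_iff.mp hf (⋂ z ∈ range u ∪ range y,
      {g | |g.1 z - f.1 z| < 1 / (k + 1)}) (((finite_range u).union (finite_range y)).isOpen_biInter
        fun z _ => isOpen_lt (((continuous_apply z).comp continuous_subtype_val).sub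
          continuous_const).abs continuous_const) (mem_iInter₂.mpr fun z _ => by simpa using ε0)
    refine ⟨_, ⟨g, g2, rfl⟩, fun z hz => ?_, fun i => ?_⟩
    · have : |g.1 z - f.1 z| < 1 / (k + 1) := mem_iInter₂.mp g1 z (Or.inl hz)
      show |g.1 z - f.1 z| < _
      linarith
    · obtain ⟨w, w1, w2⟩ := qc g.1 g.2 (y i) _ ε0
      refine ⟨w, (y1 i).trans w1, fun z hz => ?_⟩
      have a : |g.1 (y i) - f.1 (y i)| < 1 / (k + 1) := mem_iInter₂.mp g1 _ (Or.inr ⟨i, rfl⟩)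
      have b := abs_lt.mp (w2 z hz)
      have c := abs_lt.mp (y2 i z (w1.trans hz))
      have d := abs_lt.mp (y2 i _ le_rfl)
      have a := abs_lt.mp a
      show |g.1 z - f.1 z| < 4 * (1 / ((k : ℝ) + 1))
      generalize (1 / ((k : ℝ) + 1)) = ε at *
      rw [abs_lt]
      constructor <;> linarith [a.1, b.1, c.2, d.1, a.2, b.2, c.1, d.2]
  have pred : ∀ x q : T, ht q ≤ ht x → ∃ a, a ≤ x ∧ ht a = ht q := fun x q h => by
    obtain ⟨a, a1, a2⟩ := exists_minimal_le_of_wellFoundedLT (fun a => ht q ≤ ht a) x h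
    refine ⟨a, a1, le_antisymm ?_ a2.1⟩
    show IsWellFounded.rank _ a ≤ _
    rw [IsWellFounded.rank_eq]
    exact Ordinal.iSup_le fun b => Order.succ_le_of_lt (not_le.mp fun k =>
      b.2.not_ge (a2.2 k b.2.le))
  have below : ∀ {x a b : T}, a ≤ x → b ≤ x → ht a ≤ ht b → a ≤ b := fun ha hb h =>
    (cmp ha hb).elim id fun k => k.eq_or_lt.elim (fun l => l.ge) fun l => absurd h (mono l).not_ge
  let E : (l m n : ℕ) → (Fin m → T) → (Fin n → T) → (Fin n → T) → Prop := fun l m n u a s =>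
    (a ≤ s ∧ ∀ i j, ht (s i) = ht (s j)) ∧ ∃ U ∈ 𝒰 l, range u ⊆ U ∧ ∀ i, Ici (s i) ⊆ U
  let Φ : Set T → Set T := fun S => {t | ∃ s ∈ S, ht t ≤ ht s} ∪ ⋃ l, ⋃ m, ⋃ n,
    ⋃ u ∈ {u : Fin m → T | ∀ i, u i ∈ S}, ⋃ a ∈ {a : Fin n → T | ∀ i, a i ∈ S},
      ⋃ _ : Injective a ∧ ∀ i j, ht (a i) = ht (a j), ⋃ s ∈ {s | Minimal (E l m n u a) s}, range s
  have cΦ : ∀ S : Set T, S.Countable → (Φ S).Countable := fun S hS => by
    refine Countable.union ((hS.biUnion fun s _ => (an {x | ht x = ht s} fun x hx y hy n k =>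
      (mono (k.lt_of_ne n)).ne (hx.trans hy.symm)).biUnion fun x _ => ch _ (tr x)).mono ?_)
      (countable_iUnion fun l => countable_iUnion fun m => countable_iUnion fun n =>
        (countable_pi fun _ => hS).biUnion fun u _ => (countable_pi fun _ => hS).biUnion
          fun a _ => countable_iUnion fun h => (spe n a h.1 h.2 _ (fun s hs => hs.1.1)
            (anti _)).biUnion fun s _ => countable_range s)
    rintro t ⟨s, s1, s2⟩
    obtain ⟨x, x1, x2⟩ := no t s s2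
    exact mem_biUnion s1 (mem_biUnion x2 x1)
  obtain ⟨t0⟩ : Nonempty T := inferInstance
  obtain ⟨Z, z0, z1⟩ : ∃ Z : ℕ → Set T, Z 0 = {t0} ∧ ∀ k, Z (k + 1) = Φ (Z k) :=
    ⟨fun k => Nat.rec {t0} (fun _ => Φ) k, rfl, fun _ => rfl⟩
  have zc : ∀ k, (Z k).Countable := fun k => by
    induction k with
    | zero => rw [z0]; exact countable_singleton _
    | succ k ih => rw [z1]; exact cΦ _ ih
  have zm : Monotone Z := monotone_nat_of_le_succ fun k t h => by
    rw [z1]; exact Or.inl ⟨t, h, le_rfl⟩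
  have L : ∀ s ∈ ⋃ k, Z k, ∀ t, ht t ≤ ht s → t ∈ ⋃ k, Z k := fun s hs t h => by
    obtain ⟨k, hk⟩ := mem_iUnion.mp hs
    exact mem_iUnion.mpr ⟨k + 1, by rw [z1]; exact Or.inl ⟨s, hk, h⟩⟩
  have key : ∀ l, ∀ G : Set T, G.Finite → ∃ U ∈ 𝒰 l, ∀ x ∈ G,
      (x ∈ ⋃ k, Z k → x ∈ U) ∧ (x ∉ ⋃ k, Z k → Ici x ⊆ U) := by
    intro l G hG
    obtain ⟨m, u, -, hu⟩ := (hG.inter_of_left (⋃ k, Z k)).fin_param
    obtain ⟨n, r, r1, r2⟩ := ((hG.subset (diff_subset (t := ⋃ k, Z k))).image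
      fun x => Iic x ∩ ⋃ k, Z k).fin_param
    choose x x1 x2 using fun i => show r i ∈ _ from r2 ▸ mem_range_self i
    have : ∀ i j, ∃ p ∈ ⋃ k, Z k, i ≠ j → ¬ (p ≤ x i ↔ p ≤ x j) := fun i j => by
      by_contra t
      push Not at t
      refine (t t0 (mem_iUnion.mpr ⟨0, by simp [z0]⟩)).1 (r1 ?_)
      rw [← x2, ← x2]
      ext p
      exact and_congr_left fun h => (t p h).2
    choose p p1 p2 using this
    obtain ⟨q, q1, q2⟩ := exists_max_image _ ht ((finite_range (uncurry p)).insert t0)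
      (insert_nonempty _ _)
    have q3 : q ∈ ⋃ k, Z k := by
      rcases q1 with rfl | ⟨i, rfl⟩
      exacts [mem_iUnion.mpr ⟨0, by simp [z0]⟩, p1 _ _]
    have hi : ∀ i, ∀ s ∈ ⋃ k, Z k, ht s ≤ ht (x i) := fun i s hs =>
      le_of_not_ge fun k => (x1 i).2 (L s hs _ k)
    choose a a1 a2 using fun i => pred (x i) q (hi i q q3)
    have ai : Injective a := fun i j h => by
      by_contra t
      have k := q2 (p i j) (Or.inr ⟨(i, j), rfl⟩)
      exact p2 i j t ⟨fun l => (below l (a1 i) (a2 i ▸ k)).trans (h ▸ a1 j),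
        fun l => (below l (a1 j) (a2 j ▸ k)).trans (h ▸ a1 i)⟩
    obtain ⟨U, U1, U2, U3⟩ := om l m n u x
    choose y y1 y2 using U3
    obtain ⟨w, -, w2⟩ := exists_max_image _ ht ((finite_range y).insert t0) (insert_nonempty _ _)
    choose v v1 v2 using fun i => no (y i) w (w2 _ (Or.inr ⟨i, rfl⟩))
    obtain ⟨s, s1, s2⟩ := exists_minimal_le_of_wellFoundedLT (E l m n u a) v
      ⟨⟨fun i => (a1 i).trans ((y1 i).trans (v1 i)), fun i j => (v2 i).trans (v2 j).symm⟩,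
        U, U1, U2, fun i => (Ici_subset_Ici.mpr (v1 i)).trans (y2 i)⟩
    obtain ⟨k, hk⟩ : ∃ k, (∀ i, u i ∈ Z k) ∧ ∀ i, a i ∈ Z k := by
      choose c hc using fun i => mem_iUnion.mp (show u i ∈ _ from hu ▸ mem_range_self i :
        u i ∈ G ∩ ⋃ k, Z k).2
      choose d hd using fun i => mem_iUnion.mp (L q q3 (a i) (a2 i).le)
      obtain ⟨c', hc'⟩ := (finite_range c).bddAbove
      obtain ⟨d', hd'⟩ := (finite_range d).bddAbove
      exact ⟨max c' d', fun i => zm ((hc' ⟨i, rfl⟩).trans (le_max_left _ _)) (hc i),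
        fun i => zm ((hd' ⟨i, rfl⟩).trans (le_max_right _ _)) (hd i)⟩
    have sz : ∀ i, s i ∈ ⋃ k, Z k := fun i => mem_iUnion.mpr ⟨k + 1, by
      rw [z1]
      exact Or.inr (mem_iUnion.mpr ⟨l, mem_iUnion₂.mpr ⟨m, n, mem_biUnion hk.1 (mem_biUnion hk.2 (mem_iUnion.mpr
        ⟨⟨ai, fun i j => (a2 i).trans (a2 j).symm⟩, mem_biUnion s2 ⟨i, rfl⟩⟩))⟩⟩)⟩
    obtain ⟨-, V, V1, V2, V3⟩ := s2.1
    refine ⟨V, V1, fun z hz => ⟨fun h => V2 (hu ▸ ⟨hz, h⟩), fun h => ?_⟩⟩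
    obtain ⟨i, hi'⟩ : Iic z ∩ ⋃ k, Z k ∈ range r := r2 ▸ ⟨z, ⟨hz, h⟩, rfl⟩
    have : s i ∈ Iic (x i) ∩ ⋃ k, Z k :=
      ⟨below (s1 i) ((y1 i).trans (v1 i)) (hi i _ (sz i)), sz i⟩
    rw [show Iic (x i) ∩ ⋃ k, Z k = r i from x2 i, hi'] at this
    exact (Ici_subset_Ici.mpr this.1).trans (V3 i)
  obtain ⟨g, hg⟩ := ((countable_iUnion zc).union (an _ (anti (· ∉ ⋃ k, Z k)))).exists_eq_range
    ⟨t0, Or.inl (mem_iUnion.mpr ⟨0, by simp [z0]⟩)⟩
  choose U U1 U2 using fun k => key k (g '' Iic k) ((finite_Iic k).image g)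
  have ev : ∀ x, ∃ j, ∀ k, j ≤ k → x ∈ U k := fun x => by
    by_cases c : x ∈ ⋃ k, Z k
    · obtain ⟨j, rfl⟩ : x ∈ range g := hg ▸ Or.inl c
      exact ⟨j, fun k hk => (U2 k _ ⟨j, hk, rfl⟩).1 c⟩
    · obtain ⟨b, b1, b2⟩ := exists_minimal_le_of_wellFoundedLT (· ∉ ⋃ k, Z k) x c
      obtain ⟨j, rfl⟩ : b ∈ range g := hg ▸ Or.inr b2
      exact ⟨j, fun k hk => (U2 k _ ⟨j, hk, rfl⟩).2 b2.1 b1⟩
  choose G G1 G2 using U1
  refine ⟨G, G1, tendsto_subtype_rng.mpr (tendsto_pi_nhds.mpr fun x => ?_)⟩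
  obtain ⟨j, hj⟩ := ev x
  rw [tendsto_iff_dist_tendsto_zero]
  refine squeeze_zero' (Eventually.of_forall fun _ => dist_nonneg)
    ((eventually_ge_atTop j).mono fun k hk => ?_)
    (by simpa using tendsto_one_div_add_atTop_nhds_zero_nat.const_mul (4 : ℝ))
  have := hj k hk
  rw [← G2] at this
  simpa [Real.dist_eq] using (show |(G k).1 x - f.1 x| < 4 * (1 / ((k : ℝ) + 1)) from this).le

end Pool.Agent.Results.MP_6bb66b_gt.Free
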